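import Pool.Agent.Lib.MP_b4a791_lc.D.Defs

/-! Enumeration of all primitive recursive monotone functionals. -/

namespace Pool.Agent.Lib.MP_b4a791_lc

/-- The set of primitive recursive functions between primcodable types is countable
(each one is determined by a primitive recursive `ℕ → ℕ`, hence by a code). -/
theorem countable_primrec {α σ : Type*} [Primcodable α] [Primcodable σ] :
    {f : α → σ | Primrec f}.Countable := by
  have h1 : ∀ f : α → σ, Primrec f → ∃ c : Nat.Partrec.Code,
      ∀ n, c.eval n = Part.some
        (Encodable.encode ((Encodable.decode (α := α) n).map f)) := by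
    intro f hf
    have h2 : Nat.Partrec fun n => Part.some
        (Encodable.encode ((Encodable.decode (α := α) n).map f)) :=
      Nat.Partrec.of_primrec hf
    obtain ⟨c, hc⟩ := Nat.Partrec.Code.exists_code.1 h2
    exact ⟨c, fun n => by rw [hc]⟩
  have h3 : ∃ g : {f : α → σ | Primrec f} → Nat.Partrec.Code, Function.Injective g := by
    choose! G hG using h1
    refine ⟨fun f => G f.1, ?_⟩
    rintro ⟨f, hf⟩ ⟨f', hf'⟩ h
    apply Subtype.ext
    funext a
    have ha := hG f hf (Encodable.encode a)
    have ha' := hG f' hf' (Encodable.encode a)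
    simp only at h
    rw [h, ha'] at ha
    have := Part.some_injective ha
    have h4 := Encodable.encode_injective this
    simpa using h4.symm
  obtain ⟨g, hg⟩ := h3
  exact (Function.Injective.countable hg)

/-- An enumeration of all primitive recursive monotone functionals. -/
theorem exists_enum : ∃ F : ℕ → List Bool → ℕ → Option Bool,
    (∀ e, Primrec₂ (F e) ∧ MonoF (F e)) ∧
    ∀ R : List Bool → ℕ → Option Bool, Primrec₂ R → MonoF R → ∃ e, F e = R := by
  have h0 : {R : List Bool → ℕ → Option Bool | Primrec₂ R ∧ MonoF R}.Countable := by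
    have h1 := countable_primrec (α := List Bool × ℕ) (σ := Option Bool)
    have h2 : ((fun f : List Bool × ℕ → Option Bool => fun a b => f (a, b)) ''
      {f | Primrec f}).Countable := h1.image _
    refine h2.mono ?_
    rintro R ⟨hR, -⟩
    exact ⟨fun p => R p.1 p.2, hR, rfl⟩
  have hne : {R : List Bool → ℕ → Option Bool | Primrec₂ R ∧ MonoF R}.Nonempty := by
    refine ⟨fun _ _ => none, Primrec.const none, ?_⟩
    intro σ τ x b _ h
    exact absurd h (by simp)
  obtain ⟨F, hF⟩ := h0.exists_eq_range hne
  refine ⟨F, fun e => ?_, fun R hR hm => ?_⟩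
  · have : F e ∈ {R : List Bool → ℕ → Option Bool | Primrec₂ R ∧ MonoF R} := by
      rw [hF]; exact ⟨e, rfl⟩
    exact this
  · have : R ∈ {R : List Bool → ℕ → Option Bool | Primrec₂ R ∧ MonoF R} := ⟨hR, hm⟩
    rw [hF] at this
    exact this

end Pool.Agent.Lib.MP_b4a791_lc
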