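import Pool.Agent.Lib.MP_b4a791_lc.D.Defs

/-! Turing reducibility of sets: preorder and joins. -/

namespace Pool.Agent.Lib.MP_b4a791_lc

theorem TRed.refl (X : Set ℕ) : TRed X X := TuringReducible.refl _

theorem TRed.trans {X Y Z : Set ℕ} (h : TRed X Y) (h' : TRed Y Z) : TRed X Z :=
  TuringReducible.trans h h'

/-- Precomposition of an oracle set with a primitive recursive function. -/
private theorem Join_comp_oracle (O : Set (ℕ →. ℕ)) (X : Set ℕ) (hX : Nat.RecursiveIn O (chr X))
    (g : ℕ → ℕ) (hg : Nat.Primrec g) : Nat.RecursiveIn O (chr (g ⁻¹' X)) := by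
  have h1 := Nat.RecursiveIn.comp hX (Nat.Primrec.recursiveIn (O := O) hg)
  refine Nat.RecursiveIn.of_eq h1 ?_
  intro n
  simp [chr, Set.mem_preimage]
  rfl

/-- A set differing from a set recursive in `X` by a primitive recursive change of variable. -/
theorem TRed.preimage {Y X : Set ℕ} (h : TRed Y X) (g : ℕ → ℕ) (hg : Primrec g) :
    TRed (g ⁻¹' Y) X :=
  RecursiveIn.iff_nat.mpr
    (Join_comp_oracle _ Y (RecursiveIn.iff_nat.mp h) g (Primrec.nat_iff.mp hg))

private theorem Join_pre_left (X Y : Set ℕ) : (fun n => 2 * n) ⁻¹' (join X Y) = X := by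
  ext n
  simp only [join, Set.mem_preimage, Set.mem_ofPred_eq]
  constructor
  · rintro (⟨m, hm, h⟩ | ⟨m, hm, h⟩)
    · have : n = m := by omega
      rwa [this]
    · omega
  · intro h
    exact Or.inl ⟨n, h, rfl⟩

private theorem Join_pre_right (X Y : Set ℕ) : (fun n => 2 * n + 1) ⁻¹' (join X Y) = Y := by
  ext n
  simp only [join, Set.mem_preimage, Set.mem_ofPred_eq]
  constructor
  · rintro (⟨m, hm, h⟩ | ⟨m, hm, h⟩)
    · omega
    · have : n = m := by omega
      rwa [this]
  · intro h
    exact Or.inr ⟨n, h, rfl⟩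

private theorem Join_primrec_double : Primrec (fun n : ℕ => 2 * n) :=
  Primrec.nat_mul.comp (Primrec.const 2) Primrec.id

theorem tred_join_left (X Y : Set ℕ) : TRed X (join X Y) := by
  have h := TRed.preimage (TRed.refl (join X Y)) (fun n => 2 * n) Join_primrec_double
  rwa [Join_pre_left] at h

theorem tred_join_right (X Y : Set ℕ) : TRed Y (join X Y) := by
  have h := TRed.preimage (TRed.refl (join X Y)) (fun n => 2 * n + 1)
    (Primrec.succ.comp Join_primrec_double)
  rwa [Join_pre_right] at h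

theorem join_tred {X Y Z : Set ℕ} (h : TRed X Z) (h' : TRed Y Z) : TRed (join X Y) Z := by
  classical
  -- the values at `n / 2` in both sets, then a primitive recursive selection
  have hdiv : Primrec (fun n : ℕ => n / 2) := Primrec.nat_div.comp Primrec.id (Primrec.const 2)
  have h1 : Nat.RecursiveIn {chr Z} (chr ((fun n => n / 2) ⁻¹' X)) :=
    RecursiveIn.iff_nat.mp (TRed.preimage h _ hdiv)
  have h2 : Nat.RecursiveIn {chr Z} (chr ((fun n => n / 2) ⁻¹' Y)) :=
    RecursiveIn.iff_nat.mp (TRed.preimage h' _ hdiv)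
  have hid : Nat.RecursiveIn {chr Z} (fun n : ℕ => Part.some n) := by
    have := Nat.Primrec.recursiveIn (O := {chr Z}) Nat.Primrec.id
    exact this
  have h3 := Nat.RecursiveIn.pair hid (Nat.RecursiveIn.pair h1 h2)
  have hsel : Primrec (fun k : ℕ => if (Nat.unpair k).1 % 2 = 0 then
      (Nat.unpair (Nat.unpair k).2).1 else (Nat.unpair (Nat.unpair k).2).2) := by
    have hu1 : Primrec (fun k : ℕ => (Nat.unpair k).1) := Primrec.fst.comp Primrec.unpair
    have hu2 : Primrec (fun k : ℕ => (Nat.unpair k).2) := Primrec.snd.comp Primrec.unpair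
    refine Primrec.ite ?_ (hu1.comp hu2) (hu2.comp hu2)
    exact Primrec.eq.comp (Primrec.nat_mod.comp hu1 (Primrec.const 2)) (Primrec.const 0)
  have h4 := Nat.RecursiveIn.comp
    (Nat.Primrec.recursiveIn (O := {chr Z}) (Primrec.nat_iff.mp hsel)) h3
  refine RecursiveIn.iff_nat.mpr (Nat.RecursiveIn.of_eq h4 ?_)
  intro n
  have hj : n ∈ join X Y ↔ if n % 2 = 0 then n / 2 ∈ X else n / 2 ∈ Y := by
    simp only [join, Set.mem_ofPred_eq]
    split_ifs with hn
    · constructor
      · rintro (⟨m, hm, h⟩ | ⟨m, hm, h⟩)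
        · have : n / 2 = m := by omega
          rwa [this]
        · omega
      · intro hm
        exact Or.inl ⟨n / 2, hm, by omega⟩
    · constructor
      · rintro (⟨m, hm, h⟩ | ⟨m, hm, h⟩)
        · omega
        · have : n / 2 = m := by omega
          rwa [this]
      · intro hm
        exact Or.inr ⟨n / 2, hm, by omega⟩
  by_cases hn : n % 2 = 0
  · simp [chr, hj, hn, Seq.seq]
  · simp [chr, hj, hn, Seq.seq]

end Pool.Agent.Lib.MP_b4a791_lc
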