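import Pool.Agent.Lib.MP_b4a791_lc.D.F_main

/-! Normal form: `Y ≤_T X` is given by a primitive recursive monotone functional. -/

namespace Pool.Agent.Lib.MP_b4a791_lc

/-- Search of bounded length: stage `k` tries the code `c` for `k.unpair.1` steps with the oracle
string `σ.take k.unpair.2`. -/
private noncomputable def NF_T (c : Nat.Partrec.Code) (p : List Bool × ℕ) (k : ℕ) : Option ℕ :=
  Nat.rec (motive := fun _ => Option ℕ) none
    (fun k r => r <|> Nat.Partrec.Code.evaln k.unpair.1 c
      (Encodable.encode (p.1.take k.unpair.2, p.2))) k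

private theorem NF_T_zero (c : Nat.Partrec.Code) (p : List Bool × ℕ) : NF_T c p 0 = none := rfl

private theorem NF_T_succ (c : Nat.Partrec.Code) (p : List Bool × ℕ) (k : ℕ) :
    NF_T c p (k + 1) = (NF_T c p k <|> Nat.Partrec.Code.evaln k.unpair.1 c
      (Encodable.encode (p.1.take k.unpair.2, p.2))) := rfl

private theorem NF_T_primrec (c : Nat.Partrec.Code) :
    Primrec fun p : List Bool × ℕ => NF_T c p (p.1.length + 1) := by
  have hh : Primrec₂ fun (p : List Bool × ℕ) (q : ℕ × Option ℕ) =>
      (q.2 <|> Nat.Partrec.Code.evaln q.1.unpair.1 c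
        (Encodable.encode (p.1.take q.1.unpair.2, p.2))) := by
    have hu : Primrec fun a : (List Bool × ℕ) × (ℕ × Option ℕ) => a.2.1.unpair :=
      Primrec.unpair.comp (Primrec.fst.comp Primrec.snd)
    have h1 : Primrec fun a : (List Bool × ℕ) × (ℕ × Option ℕ) =>
        (Encodable.encode (a.1.1.take a.2.1.unpair.2, a.1.2) : ℕ) :=
      Primrec.encode.comp ((Primrec.list_take.comp (Primrec.snd.comp hu)
        (Primrec.fst.comp Primrec.fst)).pair (Primrec.snd.comp Primrec.fst))
    have h2 : Primrec fun a : (List Bool × ℕ) × (ℕ × Option ℕ) =>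
        Nat.Partrec.Code.evaln a.2.1.unpair.1 c
          (Encodable.encode (a.1.1.take a.2.1.unpair.2, a.1.2)) :=
      Nat.Partrec.Code.primrec_evaln.comp
        (((Primrec.fst.comp hu).pair (Primrec.const c)).pair h1)
    exact Primrec.option_orElse.comp (Primrec.snd.comp Primrec.snd) h2
  exact Primrec.nat_rec' (Primrec.succ.comp (Primrec.list_length.comp Primrec.fst))
    (Primrec.const none) hh

private theorem NF_T_mono (c : Nat.Partrec.Code) (p : List Bool × ℕ) {k l : ℕ} (h : k ≤ l) {y : ℕ}
    (hy : NF_T c p k = some y) : NF_T c p l = some y := by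
  induction l, h using Nat.le_induction with
  | base => exact hy
  | succ l _ ih => rw [NF_T_succ, ih]; rfl

private theorem NF_T_congr (c : Nat.Partrec.Code) {σ τ : List Bool} (x : ℕ) (h : σ <+: τ) {k : ℕ}
    (hk : k ≤ σ.length + 1) : NF_T c (σ, x) k = NF_T c (τ, x) k := by
  induction k with
  | zero => rfl
  | succ k ih =>
    rw [NF_T_succ, NF_T_succ, ih (by omega)]
    have h1 : k.unpair.2 ≤ σ.length := (Nat.unpair_right_le k).trans (by omega)
    have h2 : σ.take k.unpair.2 = τ.take k.unpair.2 := by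
      obtain ⟨ρ, rfl⟩ := h
      rw [List.take_append_of_le_length h1]
    show (_ <|> Nat.Partrec.Code.evaln k.unpair.1 c (Encodable.encode (σ.take k.unpair.2, x))) =
      (_ <|> Nat.Partrec.Code.evaln k.unpair.1 c (Encodable.encode (τ.take k.unpair.2, x)))
    rw [h2]

private theorem NF_T_sound (c : Nat.Partrec.Code) (p : List Bool × ℕ) {k : ℕ} {y : ℕ}
    (hy : NF_T c p k = some y) : ∃ i j, j < k ∧
      y ∈ Nat.Partrec.Code.evaln i c (Encodable.encode (p.1.take j, p.2)) := by
  induction k with
  | zero => exact absurd hy (by simp [NF_T_zero])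
  | succ k ih =>
    rw [NF_T_succ] at hy
    cases hc : NF_T c p k with
    | none =>
      rw [hc] at hy
      refine ⟨k.unpair.1, k.unpair.2, lt_of_le_of_lt (Nat.unpair_right_le k) (Nat.lt_succ_self k), ?_⟩
      exact hy
    | some z =>
      rw [hc] at hy
      obtain ⟨i, j, hj, h⟩ := ih (by rw [hc]; exact hy)
      exact ⟨i, j, hj.trans (Nat.lt_succ_self k), h⟩

/-- From a partial recursive functional to a primitive recursive monotone one: `R σ x` looks for
the first `n = pair i j ≤ σ.length` such that `Nat.Partrec.Code.evaln i c (encode (σ.take j, x))`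
is some `y` and answers `decide (y ≠ 0)` (here `c` is a code of the functional; `evaln` is
primitive recursive by `Nat.Partrec.Code.primrec_evaln`). -/
theorem nf_of_hasF {X Y : Set ℕ} (h : HasF X (chr Y)) :
    ∃ R : List Bool → ℕ → Option Bool, Primrec₂ R ∧ MonoF R ∧
      ∀ x, ∃ n, R (pre X n) x = some (open Classical in decide (x ∈ Y)) := by
  classical
  obtain ⟨G, hG, hmono, hval⟩ := h
  obtain ⟨c, hc⟩ := Nat.Partrec.Code.exists_code.1 hG
  have hev : ∀ (σ : List Bool) (x y : ℕ),
      y ∈ Nat.Partrec.Code.eval c (Encodable.encode (σ, x)) ↔ y ∈ G σ x := by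
    intro σ x y
    rw [hc]
    simp
  refine ⟨fun σ x => (NF_T c (σ, x) (σ.length + 1)).map fun y => !(y == 0), ?_, ?_, ?_⟩
  · exact Primrec.option_map (NF_T_primrec c)
      (Primrec.not.comp (Primrec.beq.comp Primrec.snd (Primrec.const 0))).to₂
  · intro σ τ x b hστ hb
    rw [Option.map_eq_some_iff] at hb ⊢
    obtain ⟨y, hy, hyb⟩ := hb
    refine ⟨y, ?_, hyb⟩
    rw [NF_T_congr c x hστ le_rfl] at hy
    exact NF_T_mono c (τ, x) (by have := hστ.length_le; omega) hy
  · intro x
    obtain ⟨m, hm⟩ := (hval x (if x ∈ Y then 1 else 0)).1 (by simp [chr])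
    obtain ⟨k, hk⟩ := Nat.Partrec.Code.evaln_complete.1 ((hev _ _ _).2 hm)
    set n := Nat.pair k m with hn
    have hmn : m ≤ n := Nat.right_le_pair k m
    refine ⟨n, ?_⟩
    have h1 : (NF_T c (pre X n, x) (n + 1)).isSome := by
      rw [NF_T_succ]
      cases hT : NF_T c (pre X n, x) n with
      | some z => rfl
      | none =>
        have h2 : Nat.Partrec.Code.evaln n.unpair.1 c
            (Encodable.encode ((pre X n).take n.unpair.2, x)) = some (if x ∈ Y then 1 else 0) := by
          rw [hn, Nat.unpair_pair, ← hn, pre_take X hmn]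
          exact hk
        show (none <|> Nat.Partrec.Code.evaln n.unpair.1 c
            (Encodable.encode ((pre X n).take n.unpair.2, x))).isSome
        rw [h2]
        rfl
    obtain ⟨y, hy⟩ := Option.isSome_iff_exists.1 h1
    show (NF_T c (pre X n, x) ((pre X n).length + 1)).map _ = _
    rw [length_pre, hy]
    obtain ⟨i, j, hj, hij⟩ := NF_T_sound c _ hy
    rw [show ((pre X n, x) : List Bool × ℕ).1 = pre X n from rfl, pre_take X (by omega : j ≤ n)] at hij
    have h3 := (hev _ _ _).1 (Nat.Partrec.Code.evaln_sound hij)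
    have h4 : y ∈ chr Y x := (hval x y).2 ⟨j, h3⟩
    have h5 : y = if x ∈ Y then 1 else 0 := by
      simpa [chr] using h4
    rw [h5]
    by_cases hx : x ∈ Y <;> simp [hx]

theorem nf {X Y : Set ℕ} (h : TRed Y X) :
    ∃ R : List Bool → ℕ → Option Bool, Primrec₂ R ∧ MonoF R ∧
      ∀ x, ∃ n, R (pre X n) x = some (open Classical in decide (x ∈ Y)) :=
  nf_of_hasF (hasF_of_recursiveIn (RecursiveIn.iff_nat.1 h))

end Pool.Agent.Lib.MP_b4a791_lc
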