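import Pool.Agent.Lib.MP_b4a791_lc.D.Defs

/-! Converse of the normal form: a correct functional that answers everywhere gives a Turing
reduction. -/

namespace Pool.Agent.Lib.MP_b4a791_lc

private lemma tot_comp {O : Set (ℕ →. ℕ)} {f g : ℕ → ℕ}
    (hf : Nat.RecursiveIn O fun n => Part.some (f n))
    (hg : Nat.RecursiveIn O fun n => Part.some (g n)) :
    Nat.RecursiveIn O fun n => Part.some (f (g n)) :=
  (hf.comp hg).of_eq fun n => by simp

private lemma tot_pair {O : Set (ℕ →. ℕ)} {f g : ℕ → ℕ}
    (hf : Nat.RecursiveIn O fun n => Part.some (f n))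
    (hg : Nat.RecursiveIn O fun n => Part.some (g n)) :
    Nat.RecursiveIn O fun n => Part.some (Nat.pair (f n) (g n)) :=
  (hf.pair hg).of_eq fun n => by simp [Seq.seq]

private lemma tot_prec {O : Set (ℕ →. ℕ)} {f h : ℕ → ℕ}
    (hf : Nat.RecursiveIn O fun n => Part.some (f n))
    (hh : Nat.RecursiveIn O fun n => Part.some (h n)) :
    Nat.RecursiveIn O fun p => Part.some
      (Nat.rec (motive := fun _ => ℕ) (f p.unpair.1)
        (fun y i => h (Nat.pair p.unpair.1 (Nat.pair y i))) p.unpair.2) :=
  (hf.prec hh).of_eq fun p => by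
    show (Nat.rec (motive := fun _ => Part ℕ) (Part.some (f p.unpair.1)) (fun y IH => do
      let i ← IH
      Part.some (h (Nat.pair p.unpair.1 (Nat.pair y i)))) p.unpair.2) = _
    induction p.unpair.2 with
    | zero => rfl
    | succ k ih =>
      show (do
        let i ← (Nat.rec (motive := fun _ => Part ℕ) (Part.some (f p.unpair.1)) (fun y IH => do
          let i ← IH
          Part.some (h (Nat.pair p.unpair.1 (Nat.pair y i)))) k)
        Part.some (h (Nat.pair p.unpair.1 (Nat.pair k i)))) = _
      rw [ih]
      simp

private lemma tot_prim {O : Set (ℕ →. ℕ)} {f : ℕ → ℕ} (hf : Primrec f) :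
    Nat.RecursiveIn O fun n => Part.some (f n) :=
  Nat.Primrec.recursiveIn (Primrec.nat_iff.1 hf)

private def stepF (m : ℕ) : ℕ :=
  Encodable.encode (((Encodable.decode (α := List Bool) m.unpair.1).getD []) ++
    [decide (m.unpair.2 = 1)])

private lemma stepF_prim : Primrec stepF := by
  unfold stepF
  refine Primrec.encode.comp (Primrec.list_append.comp ?_ ?_)
  · exact Primrec.option_getD.comp (Primrec.decode.comp (Primrec.fst.comp Primrec.unpair))
      (Primrec.const [])
  · refine Primrec.list_cons.comp ?_ (Primrec.const [])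
    exact (Primrec.eq.comp (Primrec.snd.comp Primrec.unpair) (Primrec.const 1)).decide

open Classical in
private lemma pre_succ (X : Set ℕ) (n : ℕ) : pre X (n + 1) = pre X n ++ [decide (n ∈ X)] := by
  simp [pre, List.range_succ]

open Classical in
/-- The code of `pre X n` is recursive in `X` (primitive recursion on `n` with the oracle). -/
theorem recursiveIn_pre (X : Set ℕ) :
    Nat.RecursiveIn {chr X} (fun n => Part.some (Encodable.encode (pre X n))) := by
  have horc : Nat.RecursiveIn {chr X} (fun n => Part.some (if n ∈ X then 1 else 0)) :=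
    Nat.RecursiveIn.oracle _ rfl
  have h1 : Nat.RecursiveIn {chr X} fun m => Part.some
      (stepF (Nat.pair m.unpair.2.unpair.2 (if m.unpair.2.unpair.1 ∈ X then 1 else 0))) := by
    refine tot_comp (tot_prim stepF_prim) (tot_pair ?_ ?_)
    · exact tot_prim (Primrec.snd.comp (Primrec.unpair.comp (Primrec.snd.comp Primrec.unpair)))
    · exact tot_comp (f := fun n => if n ∈ X then 1 else 0)
        (g := fun m : ℕ => m.unpair.2.unpair.1) horc
        (tot_prim (Primrec.fst.comp (Primrec.unpair.comp (Primrec.snd.comp Primrec.unpair))))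
  have h2 := tot_prec (f := fun _ => Encodable.encode ([] : List Bool))
    (tot_prim (Primrec.const _)) h1
  have h3 := tot_comp h2 (g := fun n => Nat.pair 0 n)
    (tot_prim (Primrec₂.natPair.comp (Primrec.const 0) Primrec.id))
  refine h3.of_eq fun n => ?_
  simp only [Nat.unpair_pair]
  congr 1
  induction n with
  | zero => simp [pre]
  | succ k ih =>
    show stepF (Nat.pair _ _) = _
    rw [ih, pre_succ, stepF]
    simp only [Nat.unpair_pair, Encodable.encodek, Option.getD_some]
    by_cases hk : k ∈ X <;> simp [hk]

open Classical in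
/-- Search with `rfind` for `n` such that `R (pre X n) x` is `some b`, answer `b`. -/
theorem cv {X Y : Set ℕ} (R : List Bool → ℕ → Option Bool) (hR : Primrec₂ R)
    (hd : ∀ x, ∃ n, (R (pre X n) x).isSome)
    (hc : ∀ x n b, R (pre X n) x = some b → b = decide (x ∈ Y)) : TRed Y X := by
  -- code of the pair (x, code of pre X n)
  have hp : Nat.RecursiveIn {chr X} fun m : ℕ => Part.some
      (Nat.pair m.unpair.1 (Encodable.encode (pre X m.unpair.2))) := by
    refine tot_pair (tot_prim (Primrec.fst.comp Primrec.unpair)) ?_
    exact tot_comp (f := fun n => Encodable.encode (pre X n)) (recursiveIn_pre X)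
      (tot_prim (Primrec.snd.comp Primrec.unpair))
  -- the two primitive recursive functions
  have hdec : Primrec fun m : ℕ => R ((Encodable.decode (α := List Bool) m.unpair.2).getD [])
      m.unpair.1 :=
    hR.comp (Primrec.option_getD.comp (Primrec.decode.comp (Primrec.snd.comp Primrec.unpair))
      (Primrec.const [])) (Primrec.fst.comp Primrec.unpair)
  have hg : Primrec fun m : ℕ => if (R ((Encodable.decode (α := List Bool) m.unpair.2).getD [])
      m.unpair.1) = none then 1 else 0 :=
    Primrec.ite (Primrec.eq.comp hdec (Primrec.const none)) (Primrec.const 1) (Primrec.const 0)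
  have hv : Primrec fun m : ℕ => if (R ((Encodable.decode (α := List Bool) m.unpair.2).getD [])
      m.unpair.1) = some true then 1 else 0 :=
    Primrec.ite (Primrec.eq.comp hdec (Primrec.const (some true))) (Primrec.const 1)
      (Primrec.const 0)
  have hG := tot_comp (tot_prim (O := {chr X}) hg) hp
  have hV := tot_comp (tot_prim (O := {chr X}) hv) hp
  simp only [Nat.unpair_pair, Encodable.encodek, Option.getD_some] at hG hV
  have hF := hG.rfind
  have hW := hV.comp ((tot_prim (O := {chr X}) (f := fun n => n) Primrec.id).pair hF)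
  have : Nat.RecursiveIn {chr X} (chr Y) := by
    refine hW.of_eq fun x => ?_
    obtain ⟨n, hn⟩ := hd x
    have hex : ∃ n, R (pre X n) x ≠ none := ⟨n, by
      intro h; rw [h] at hn; simp at hn⟩
    have h0 : R (pre X (Nat.find hex)) x ≠ none := Nat.find_spec hex
    have hfind : (Nat.rfind fun n => (fun m => decide (m = 0)) <$>
        (Part.some (if R (pre X (Nat.pair x n).unpair.2) (Nat.pair x n).unpair.1 = none then 1
          else 0) : Part ℕ)) = Part.some (Nat.find hex) := by
      refine Part.eq_some_iff.2 (Nat.mem_rfind.2 ⟨?_, ?_⟩)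
      · simp [h0]
      · intro m hm
        have := Nat.find_min hex hm
        push Not at this
        simp [this]
    obtain ⟨b, hb⟩ := Option.ne_none_iff_exists'.1 h0
    have hb' := hc x _ b hb
    simp only [hfind, chr]
    simp only [Seq.seq, Part.map_eq_map, Part.map_some, Part.bind_some, Part.bind_eq_bind,
      Nat.unpair_pair, hb]
    congr 1
    rw [hb']
    by_cases hx : x ∈ Y <;> simp [hx]
  exact RecursiveIn.iff_nat.2 this

open Classical in
/-- Version for monotone functionals. -/
theorem cv' {X Y : Set ℕ} (R : List Bool → ℕ → Option Bool) (hR : Primrec₂ R) (hm : MonoF R)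
    (hd : ∀ x, ∃ n, R (pre X n) x = some (decide (x ∈ Y))) : TRed Y X := by
  refine cv R hR (fun x => ?_) fun x n b hb => ?_
  · obtain ⟨n, hn⟩ := hd x
    exact ⟨n, by rw [hn]; rfl⟩
  · obtain ⟨n', hn'⟩ := hd x
    have h1 := hm _ _ _ _ (pre_prefix X (le_max_left n n')) hb
    have h2 := hm _ _ _ _ (pre_prefix X (le_max_right n n')) hn'
    rw [h1] at h2
    exact Option.some_injective _ h2

end Pool.Agent.Lib.MP_b4a791_lc
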