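import Pool.Agent.Lib.MP_b4a791_lc.Stmt

/-!
# MP_b4a791_lc, Part D: interface with Turing computability

`pre X n` is the initial segment of length `n` of the characteristic function of `X`.
-/

namespace Pool.Agent.Lib.MP_b4a791_lc

open Classical in
/-- Initial segment of length `n` of the characteristic function of `X`. -/
noncomputable def pre (X : Set ℕ) (n : ℕ) : List Bool :=
  (List.range n).map fun i => decide (i ∈ X)

@[simp] lemma length_pre (X : Set ℕ) (n : ℕ) : (pre X n).length = n := by simp [pre]

lemma pre_prefix (X : Set ℕ) {m n : ℕ} (h : m ≤ n) : pre X m <+: pre X n := by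
  obtain ⟨k, rfl⟩ := Nat.exists_eq_add_of_le h
  rw [pre, pre, List.range_add, List.map_append]
  exact List.prefix_append _ _

lemma getElem?_pre (X : Set ℕ) (n i : ℕ) (h : i < n) :
    (pre X n)[i]? = some (open Classical in decide (i ∈ X)) := by
  simp [pre, h]

lemma pre_take (X : Set ℕ) {m n : ℕ} (h : m ≤ n) : (pre X n).take m = pre X m := by
  have := pre_prefix X h
  rw [List.prefix_iff_eq_take] at this
  rw [this]
  simp

/-- Monotone functionals: oracle string, argument, value. -/
def MonoF {α β : Type*} (R : List Bool → α → Option β) : Prop :=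
  ∀ σ τ x b, σ <+: τ → R σ x = some b → R τ x = some b

end Pool.Agent.Lib.MP_b4a791_lc
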