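import Pool.Agent.Lib.MP_b4a791_lc.D.HasF

/-! Base cases: constants, projections and the oracle have a functional. -/

namespace Pool.Agent.Lib.MP_b4a791_lc

/-- A partial recursive function has a functional (which ignores the oracle). -/
theorem HasF.of_partrec (X : Set ℕ) {g : ℕ →. ℕ} (h : Nat.Partrec g) : HasF X g := by
  refine ⟨fun _ x => g x, (Partrec.nat_iff.2 h).comp Computable.snd, ?_, ?_⟩
  · intro σ τ x y _ hy
    exact hy
  · intro x y
    exact ⟨fun hy => ⟨0, hy⟩, fun ⟨_, hy⟩ => hy⟩

/-- The oracle has a functional: `G σ x` is the value of `σ` at `x` if `x < σ.length` and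
undefined otherwise. -/
theorem HasF.oracle (X : Set ℕ) : HasF X (chr X) := by
  classical
  refine ⟨fun σ x => ((σ[x]?.map Bool.toNat : Option ℕ) : Part ℕ), ?_, ?_, ?_⟩
  · have h1 : Primrec₂ (fun (σ : List Bool) (x : ℕ) => σ[x]?) := Primrec.list_getElem?
    have h2 : Primrec (fun a : List Bool × ℕ => (a.1[a.2]?.map Bool.toNat : Option ℕ)) :=
      Primrec.option_map h1 ((Primrec.dom_finite Bool.toNat).comp Primrec.snd).to₂
    exact Computable.ofOption h2.to_comp
  · intro σ τ x y hst hy
    simp only [Part.mem_ofOption, Option.mem_def, Option.map_eq_some_iff] at hy ⊢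
    obtain ⟨b, hb, rfl⟩ := hy
    refine ⟨b, ?_, rfl⟩
    obtain ⟨t, rfl⟩ := hst
    have hx : x < σ.length := by
      by_contra hcon
      rw [List.getElem?_eq_none (not_lt.1 hcon)] at hb
      exact absurd hb (by simp)
    rw [List.getElem?_append_left hx]
    exact hb
  · intro x y
    simp only [chr, Part.mem_some_iff, Part.mem_ofOption, Option.mem_def, Option.map_eq_some_iff]
    constructor
    · intro hy
      refine ⟨x + 1, decide (x ∈ X), getElem?_pre X (x + 1) x (Nat.lt_succ_self x), ?_⟩
      rw [hy]
      by_cases hx : x ∈ X <;> simp [hx]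
    · rintro ⟨n, b, hb, rfl⟩
      have hx : x < n := by
        by_contra hcon
        rw [List.getElem?_eq_none (by rw [length_pre]; exact not_lt.1 hcon)] at hb
        exact absurd hb (by simp)
      rw [getElem?_pre X n x hx] at hb
      have hb' := Option.some.inj hb
      rw [← hb']
      by_cases hx : x ∈ X <;> simp [hx]

end Pool.Agent.Lib.MP_b4a791_lc
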