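import Pool.Agent.Lib.MP_b4a791_lc.D.HasF

/-! Pairing and composition of functionals (use the maximum of the two uses, monotonicity). -/

namespace Pool.Agent.Lib.MP_b4a791_lc

theorem HasF.pair {X : Set ℕ} {f h : ℕ →. ℕ} (hf : HasF X f) (hh : HasF X h) :
    HasF X (fun n => (Nat.pair <$> f n <*> h n)) := by
  obtain ⟨F, hF1, hF2, hF3⟩ := hf
  obtain ⟨G, hG1, hG2, hG3⟩ := hh
  refine ⟨fun σ x => (F σ x).bind fun a => (G σ x).map fun b => Nat.pair a b, ?_, ?_, ?_⟩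
  · have h1 : Partrec fun q : List Bool × ℕ => F q.1 q.2 := hF1
    have h2 : Partrec fun q : (List Bool × ℕ) × ℕ => G q.1.1 q.1.2 :=
      hG1.comp (Computable.fst.comp Computable.fst) (Computable.snd.comp Computable.fst)
    have h3 : Computable₂ fun (q : (List Bool × ℕ) × ℕ) (b : ℕ) => Nat.pair q.2 b :=
      (Primrec₂.natPair.comp (Primrec.snd.comp Primrec.fst) Primrec.snd).to_comp
    exact h1.bind (h2.map h3)
  · intro σ τ x y hστ hy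
    rw [Part.mem_bind_iff] at hy ⊢
    obtain ⟨a, ha, hy⟩ := hy
    rw [Part.mem_map_iff] at hy
    obtain ⟨b, hb, rfl⟩ := hy
    exact ⟨a, hF2 _ _ _ _ hστ ha, (Part.mem_map_iff _).2 ⟨b, hG2 _ _ _ _ hστ hb, rfl⟩⟩
  · intro x y
    have h0 : y ∈ (Nat.pair <$> f x <*> h x) ↔ ∃ a ∈ f x, ∃ b ∈ h x, Nat.pair a b = y := by
      simp [Seq.seq]
    rw [h0]
    constructor
    · rintro ⟨a, ha, b, hb, rfl⟩
      obtain ⟨m, hm⟩ := (hF3 _ _).1 ha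
      obtain ⟨n, hn⟩ := (hG3 _ _).1 hb
      refine ⟨max m n, Part.mem_bind_iff.2 ⟨a, hF2 _ _ _ _ (pre_prefix X (le_max_left m n)) hm,
        (Part.mem_map_iff _).2 ⟨b, hG2 _ _ _ _ (pre_prefix X (le_max_right m n)) hn, rfl⟩⟩⟩
    · rintro ⟨n, hn⟩
      obtain ⟨a, ha, hy⟩ := Part.mem_bind_iff.1 hn
      obtain ⟨b, hb, hy⟩ := (Part.mem_map_iff _).1 hy
      exact ⟨a, (hF3 _ _).2 ⟨n, ha⟩, b, (hG3 _ _).2 ⟨n, hb⟩, hy⟩

theorem HasF.comp {X : Set ℕ} {f h : ℕ →. ℕ} (hf : HasF X f) (hh : HasF X h) :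
    HasF X (fun n => h n >>= f) := by
  obtain ⟨F, hF1, hF2, hF3⟩ := hf
  obtain ⟨G, hG1, hG2, hG3⟩ := hh
  refine ⟨fun σ x => (G σ x).bind fun a => F σ a, ?_, ?_, ?_⟩
  · have h1 : Partrec fun q : List Bool × ℕ => G q.1 q.2 := hG1
    have h2 : Partrec fun q : (List Bool × ℕ) × ℕ => F q.1.1 q.2 :=
      hF1.comp (Computable.fst.comp Computable.fst) Computable.snd
    exact h1.bind h2
  · intro σ τ x y hστ hy
    rw [Part.mem_bind_iff] at hy ⊢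
    obtain ⟨a, ha, hy⟩ := hy
    exact ⟨a, hG2 _ _ _ _ hστ ha, hF2 _ _ _ _ hστ hy⟩
  · intro x y
    have h0 : y ∈ (h x).bind f ↔ ∃ a ∈ h x, y ∈ f a := Part.mem_bind_iff
    refine Iff.trans h0 ?_
    constructor
    · rintro ⟨a, ha, hy⟩
      obtain ⟨m, hm⟩ := (hG3 _ _).1 ha
      obtain ⟨n, hn⟩ := (hF3 _ _).1 hy
      exact ⟨max m n, Part.mem_bind_iff.2 ⟨a, hG2 _ _ _ _ (pre_prefix X (le_max_left m n)) hm,
        hF2 _ _ _ _ (pre_prefix X (le_max_right m n)) hn⟩⟩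
    · rintro ⟨n, hn⟩
      obtain ⟨a, ha, hy⟩ := Part.mem_bind_iff.1 hn
      exact ⟨a, (hG3 _ _).2 ⟨n, ha⟩, (hF3 _ _).2 ⟨n, hy⟩⟩

end Pool.Agent.Lib.MP_b4a791_lc
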