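import Pool.Agent.Lib.MP_b4a791_lc.D.HasF

/-! Primitive recursion of functionals. The functional is defined by the same recursion with
the oracle string as a parameter (`Partrec.nat_rec`); finite use by induction on `n`. -/

namespace Pool.Agent.Lib.MP_b4a791_lc

/-- the recursion -/
private def precR (f h : ℕ →. ℕ) (a : ℕ) (n : ℕ) : Part ℕ :=
  n.rec (f a) fun y IH => IH.bind fun i => h (Nat.pair a (Nat.pair y i))

private theorem precR_zero (f h : ℕ →. ℕ) (a : ℕ) : precR f h a 0 = f a := rfl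

private theorem precR_succ (f h : ℕ →. ℕ) (a n : ℕ) : precR f h a (n + 1) =
    (precR f h a n).bind fun i => h (Nat.pair a (Nat.pair n i)) := rfl

private theorem precR_mono {f h f' h' : ℕ →. ℕ} (hf : ∀ x y, y ∈ f x → y ∈ f' x)
    (hh : ∀ x y, y ∈ h x → y ∈ h' x) (a n y : ℕ) (hy : y ∈ precR f h a n) :
    y ∈ precR f' h' a n := by
  induction n generalizing y with
  | zero => exact hf _ _ hy
  | succ n ih =>
    rw [precR_succ, Part.mem_bind_iff] at hy ⊢
    obtain ⟨i, hi, hy⟩ := hy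
    exact ⟨i, ih i hi, hh _ _ hy⟩

private theorem precR_partrec {Gf Gh : List Bool → ℕ →. ℕ} (hf : Partrec₂ Gf) (hh : Partrec₂ Gh) :
    Partrec₂ fun (σ : List Bool) (p : ℕ) =>
      precR (Gf σ) (Gh σ) (Nat.unpair p).1 (Nat.unpair p).2 := by
  have hu : Computable fun q : List Bool × ℕ => Nat.unpair q.2 :=
    Computable.unpair.comp Computable.snd
  have h1 : Computable fun q : List Bool × ℕ => (Nat.unpair q.2).2 := Computable.snd.comp hu
  have h2 : Partrec fun q : List Bool × ℕ => Gf q.1 (Nat.unpair q.2).1 :=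
    hf.comp Computable.fst (Computable.fst.comp hu)
  have h3 : Partrec₂ fun (q : List Bool × ℕ) (r : ℕ × ℕ) =>
      Gh q.1 (Nat.pair (Nat.unpair q.2).1 (Nat.pair r.1 r.2)) := by
    refine hh.comp (Computable.fst.comp Computable.fst) ?_
    exact Primrec₂.natPair.to_comp.comp (Computable.fst.comp (hu.comp Computable.fst))
      (Primrec₂.natPair.to_comp.comp (Computable.fst.comp Computable.snd)
        (Computable.snd.comp Computable.snd))
  exact Partrec.nat_rec h1 h2 h3

private theorem precR_use {X : Set ℕ} {f h : ℕ →. ℕ} {Gf Gh : List Bool → ℕ →. ℕ}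
    (mf : ∀ σ τ x y, σ <+: τ → y ∈ Gf σ x → y ∈ Gf τ x)
    (mh : ∀ σ τ x y, σ <+: τ → y ∈ Gh σ x → y ∈ Gh τ x)
    (uf : ∀ x y, y ∈ f x ↔ ∃ n, y ∈ Gf (pre X n) x)
    (uh : ∀ x y, y ∈ h x ↔ ∃ n, y ∈ Gh (pre X n) x) (a n y : ℕ) :
    y ∈ precR f h a n ↔ ∃ k, y ∈ precR (Gf (pre X k)) (Gh (pre X k)) a n := by
  constructor
  · intro hy
    induction n generalizing y with
    | zero => exact (uf _ _).1 hy
    | succ n ih =>
      rw [precR_succ, Part.mem_bind_iff] at hy
      obtain ⟨i, hi, hy⟩ := hy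
      obtain ⟨k1, h1⟩ := ih i hi
      obtain ⟨k2, h2⟩ := (uh _ _).1 hy
      refine ⟨max k1 k2, ?_⟩
      rw [precR_succ, Part.mem_bind_iff]
      refine ⟨i, ?_, mh _ _ _ _ (pre_prefix X (le_max_right _ _)) h2⟩
      exact precR_mono (fun x y => mf _ _ x y (pre_prefix X (le_max_left _ _)))
        (fun x y => mh _ _ x y (pre_prefix X (le_max_left _ _))) a n i h1
  · rintro ⟨k, hy⟩
    exact precR_mono (fun x y h => (uf x y).2 ⟨k, h⟩) (fun x y h => (uh x y).2 ⟨k, h⟩) a n y hy

theorem HasF.prec {X : Set ℕ} {f h : ℕ →. ℕ} (hf : HasF X f) (hh : HasF X h) :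
    HasF X (fun p =>
        let (a, n) := Nat.unpair p
        n.rec (f a) fun y IH => do
          let i ← IH
          h (Nat.pair a (Nat.pair y i))) := by
  obtain ⟨Gf, pf, mf, uf⟩ := hf
  obtain ⟨Gh, ph, mh, uh⟩ := hh
  refine ⟨_, precR_partrec pf ph, ?_, ?_⟩
  · intro σ τ x y hστ hy
    exact precR_mono (fun x y => mf _ _ x y hστ) (fun x y => mh _ _ x y hστ) _ _ y hy
  · intro x y
    exact precR_use mf mh uf uh (Nat.unpair x).1 (Nat.unpair x).2 y

end Pool.Agent.Lib.MP_b4a791_lc
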