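import Pool.Agent.Lib.MP_b4a791_lc.D.HasF

/-! Unbounded search with functionals. The functional is `Nat.rfind` with the oracle string as a
parameter (`Partrec.rfind`); monotonicity: all values used in the search persist. -/

namespace Pool.Agent.Lib.MP_b4a791_lc

theorem HasF.rfind {X : Set ℕ} {f : ℕ →. ℕ} (hf : HasF X f) :
    HasF X (fun a => Nat.rfind fun n => (fun m => m = 0) <$> f (Nat.pair a n)) := by
  obtain ⟨G, hG, hmono, hspec⟩ := hf
  have key : ∀ (g : ℕ →. ℕ) (b : Bool) (n : ℕ),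
      b ∈ ((fun m => decide (m = 0)) <$> g n : Part Bool) ↔ ∃ m ∈ g n, decide (m = 0) = b := by
    intro g b n
    simp
  refine ⟨fun σ a => Nat.rfind fun n => (fun m => decide (m = 0)) <$> G σ (Nat.pair a n),
    ?_, ?_, ?_⟩
  · have h1 : Partrec₂ (fun (p : List Bool × ℕ) (n : ℕ) =>
        (G p.1 (Nat.pair p.2 n)).map (fun m => decide (m = 0))) := by
      refine Partrec.map ?_ ?_
      · exact hG.comp (Computable.fst.comp Computable.fst)
          (Primrec₂.natPair.to_comp.comp (Computable.snd.comp Computable.fst) Computable.snd)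
      · exact ((Primrec.eq.decide.comp Primrec.snd (Primrec.const 0)).to_comp :
          Computable fun q : (((List Bool × ℕ) × ℕ) × ℕ) => decide (q.2 = 0)).to₂
    exact Partrec.rfind h1
  · intro σ τ x y hστ hy
    rw [Nat.mem_rfind] at hy ⊢
    refine ⟨?_, fun {m} hm => ?_⟩
    · obtain ⟨m, hm, hb⟩ := (key (fun n => G σ (Nat.pair x n)) _ y).1 hy.1
      exact (key (fun n => G τ (Nat.pair x n)) _ y).2 ⟨m, hmono _ _ _ _ hστ hm, hb⟩
    · obtain ⟨k, hk, hb⟩ := (key (fun n => G σ (Nat.pair x n)) _ m).1 (hy.2 hm)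
      exact (key (fun n => G τ (Nat.pair x n)) _ m).2 ⟨k, hmono _ _ _ _ hστ hk, hb⟩
  · intro x y
    constructor
    · intro hy
      rw [Nat.mem_rfind] at hy
      obtain ⟨m, hm, hb⟩ := (key (fun n => f (Nat.pair x n)) _ y).1 hy.1
      obtain ⟨n₀, hn₀⟩ := (hspec _ _).1 hm
      have h2 : ∀ i, ∃ N, i < y → false ∈
          ((fun m => decide (m = 0)) <$> G (pre X N) (Nat.pair x i) : Part Bool) := by
        intro i
        by_cases hi : i < y
        · obtain ⟨k, hk, hb⟩ := (key (fun n => f (Nat.pair x n)) _ i).1 (hy.2 hi)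
          obtain ⟨N, hN⟩ := (hspec _ _).1 hk
          exact ⟨N, fun _ => (key (fun n => G (pre X N) (Nat.pair x n)) _ i).2 ⟨k, hN, hb⟩⟩
        · exact ⟨0, fun h => absurd h hi⟩
      choose N hN using h2
      refine ⟨max n₀ ((Finset.range y).sup N), ?_⟩
      rw [Nat.mem_rfind]
      refine ⟨?_, fun {i} hi => ?_⟩
      · exact (key (fun n => G (pre X _) (Nat.pair x n)) _ y).2
          ⟨m, hmono _ _ _ _ (pre_prefix X (le_max_left _ _)) hn₀, hb⟩
      · obtain ⟨k, hk, hb⟩ := (key (fun n => G (pre X (N i)) (Nat.pair x n)) _ i).1 (hN i hi)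
        refine (key (fun n => G (pre X _) (Nat.pair x n)) _ i).2
          ⟨k, hmono _ _ _ _ (pre_prefix X ?_) hk, hb⟩
        exact le_trans (Finset.le_sup (f := N) (Finset.mem_range.2 hi)) (le_max_right _ _)
    · rintro ⟨n, hn⟩
      rw [Nat.mem_rfind] at hn ⊢
      refine ⟨?_, fun {i} hi => ?_⟩
      · obtain ⟨m, hm, hb⟩ := (key (fun k => G (pre X n) (Nat.pair x k)) _ y).1 hn.1
        exact (key (fun k => f (Nat.pair x k)) _ y).2 ⟨m, (hspec _ _).2 ⟨n, hm⟩, hb⟩
      · obtain ⟨m, hm, hb⟩ := (key (fun k => G (pre X n) (Nat.pair x k)) _ i).1 (hn.2 hi)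
        exact (key (fun k => f (Nat.pair x k)) _ i).2 ⟨m, (hspec _ _).2 ⟨n, hm⟩, hb⟩

end Pool.Agent.Lib.MP_b4a791_lc
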