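import Pool.Agent.Lib.MP_b4a791_lc.D.F_base
import Pool.Agent.Lib.MP_b4a791_lc.D.F_pair
import Pool.Agent.Lib.MP_b4a791_lc.D.F_prec
import Pool.Agent.Lib.MP_b4a791_lc.D.F_rfind

/-! Every function recursive in (the characteristic function of) `X` has a functional. -/

namespace Pool.Agent.Lib.MP_b4a791_lc

theorem hasF_of_recursiveIn {X : Set ℕ} {g : ℕ →. ℕ} (h : Nat.RecursiveIn {chr X} g) :
    HasF X g := by
  induction h with
  | zero => exact HasF.of_partrec X Nat.Partrec.zero
  | succ => exact HasF.of_partrec X Nat.Partrec.succ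
  | left => exact HasF.of_partrec X Nat.Partrec.left
  | right => exact HasF.of_partrec X Nat.Partrec.right
  | oracle g hg => rw [Set.mem_singleton_iff.1 hg]; exact HasF.oracle X
  | pair _ _ ih₁ ih₂ => exact ih₁.pair ih₂
  | comp _ _ ih₁ ih₂ => exact ih₁.comp ih₂
  | prec _ _ ih₁ ih₂ => exact ih₁.prec ih₂
  | rfind _ ih => exact ih.rfind

end Pool.Agent.Lib.MP_b4a791_lc
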