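import Pool.Agent.Lib.MP_b4a791_lc.D.Fm_tm

/-! Bounded quantifiers: `R' σ l` evaluates `R σ (a :: l)` for all `a < t(l)`; if one of them is
undefined the answer is undefined, otherwise it is the conjunction. -/

namespace Pool.Agent.Lib.MP_b4a791_lc

/-- The conjunction of the answers for all `a < v`. -/
private def Fm_ball_aux (R : List Bool → List ℕ → Option Bool) (σ : List Bool) (l : List ℕ)
    (v : ℕ) : Option Bool :=
  Nat.rec (some true) (fun a acc => acc.bind fun b => (R σ (a :: l)).map fun c => b && c) v

private theorem Fm_ball_mono {R : List Bool → List ℕ → Option Bool} (hR : MonoF R)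
    {σ τ : List Bool} (hst : σ <+: τ) (l : List ℕ) (v : ℕ) :
    ∀ b, Fm_ball_aux R σ l v = some b → Fm_ball_aux R τ l v = some b := by
  induction v with
  | zero => intro b hb; exact hb
  | succ a ih =>
    intro b hb
    have hb' : ((Fm_ball_aux R σ l a).bind fun b => (R σ (a :: l)).map fun c => b && c) =
      some b := hb
    rw [Option.bind_eq_some_iff] at hb'
    obtain ⟨b1, h1, h2⟩ := hb'
    rw [Option.map_eq_some_iff] at h2
    obtain ⟨c, h3, h4⟩ := h2
    change ((Fm_ball_aux R τ l a).bind fun b => (R τ (a :: l)).map fun c => b && c) = some b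
    rw [ih b1 h1, Option.bind_some, hR σ τ _ _ hst h3, Option.map_some, h4]

private theorem Fm_ball_val {R : List Bool → List ℕ → Option Bool} {σ : List Bool} {l : List ℕ}
    {p : ℕ → Prop} (v : ℕ) (h : ∀ a < v, R σ (a :: l) = some (open Classical in decide (p a))) :
    Fm_ball_aux R σ l v = some (open Classical in decide (∀ a < v, p a)) := by
  classical
  induction v with
  | zero =>
    change some true = _
    simp
  | succ a ih =>
    have h1 := ih fun b hb => h b (by omega)
    have h2 := h a (by omega)
    change ((Fm_ball_aux R σ l a).bind fun b => (R σ (a :: l)).map fun c => b && c) = _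
    rw [h1, h2, Option.bind_some, Option.map_some]
    congr 1
    rw [Bool.eq_iff_iff]
    simp only [Bool.and_eq_true, decide_eq_true_eq]
    constructor
    · rintro ⟨h3, h4⟩ b hb
      rcases Nat.lt_succ_iff_lt_or_eq.1 hb with h5 | h5
      · exact h3 b h5
      · rw [h5]
        exact h4
    · intro h3
      exact ⟨fun b hb => h3 b (by omega), h3 a (by omega)⟩

theorem HasB.ball {S : Set (Set ℕ)} {E : ℕ → Set ℕ} {e : ℕ → ℕ} {θ : BFm} {X : Set ℕ}
    (t : Tm) (h : HasB S E e θ X) : HasB S E e (.ball t θ) X := by
  classical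
  obtain ⟨R, hR1, hR2, hR3⟩ := h
  refine ⟨fun σ l => Fm_ball_aux R σ l (t.nval (envL l e)), ?_, ?_, ?_⟩
  · unfold Fm_ball_aux
    have hv : Primrec fun q : List Bool × List ℕ => t.nval (envL q.2 e) :=
      (primrec_tm e t).comp Primrec.snd
    refine Primrec.to₂ (Primrec.nat_rec' (h := fun (q : List Bool × List ℕ)
      (p : ℕ × Option Bool) => p.2.bind fun b => (R q.1 (p.1 :: q.2)).map fun c => b && c)
      hv (Primrec.const (some true)) ?_)
    refine Primrec.option_bind (Primrec.snd.comp Primrec.snd) ?_
    have hq : Primrec fun q : ((List Bool × List ℕ) × (ℕ × Option Bool)) × Bool =>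
        R q.1.1.1 (q.1.2.1 :: q.1.1.2) :=
      hR1.comp (Primrec.fst.comp (Primrec.fst.comp Primrec.fst))
        (Primrec.list_cons.comp (Primrec.fst.comp (Primrec.snd.comp Primrec.fst))
          (Primrec.snd.comp (Primrec.fst.comp Primrec.fst)))
    exact Primrec.option_map hq
      (Primrec.and.comp (Primrec.snd.comp Primrec.fst) Primrec.snd)
  · intro σ τ l b hst hb
    exact Fm_ball_mono hR2 hst l _ b hb
  · intro l
    choose n hn using fun a => hR3 (a :: l)
    obtain ⟨v, hv⟩ : ∃ v, v = t.nval (envL l e) := ⟨_, rfl⟩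
    refine ⟨(Finset.range v).sup n, ?_⟩
    simp only
    rw [← hv]
    have h1 := Fm_ball_val (R := R) (σ := pre X ((Finset.range v).sup n)) (l := l)
      (p := fun a => θ.Sat (omegaStr S) E (scons a (envL l e))) v (by
        intro a ha
        have h2 := hR2 _ _ _ _ (pre_prefix X (Finset.le_sup (f := n) (Finset.mem_range.2 ha))) (hn a)
        rw [h2]
        congr 1
        rw [decide_eq_decide, envL_cons]
        exact Iff.rfl)
    rw [h1]
    congr 1
    rw [decide_eq_decide]
    change _ ↔ ∀ a, (omegaStr S).lt a (t.val (omegaStr S) (envL l e)) →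
      θ.Sat (omegaStr S) E (scons a (envL l e))
    rw [Tm.val_omega, ← hv]
    exact Iff.rfl

end Pool.Agent.Lib.MP_b4a791_lc
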