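import Pool.Agent.Lib.MP_b4a791_lc.D.Defs

/-!
# MP_b4a791_lc, Part D: evaluation of bounded formulas with an oracle string

The environment of number variables is a list `l` followed by the fixed parameters `e`.
-/

namespace Pool.Agent.Lib.MP_b4a791_lc

/-- The environment given by the list `l` followed by `e`. -/
def envL (l : List ℕ) (e : ℕ → ℕ) : ℕ → ℕ := fun i => ((l ++ (List.range (i + 1)).map e)[i]?).getD 0

lemma envL_lt (l : List ℕ) (e : ℕ → ℕ) (i : ℕ) (h : i < l.length) : envL l e i = l[i] := by
  simp [envL, List.getElem?_append_left h, h]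

lemma envL_ge (l : List ℕ) (e : ℕ → ℕ) (i : ℕ) : envL l e (l.length + i) = e i := by
  rw [envL, List.getElem?_append_right (by omega)]
  have h : l.length + i - l.length = i := by omega
  rw [h]
  simp

lemma envL_cons (a : ℕ) (l : List ℕ) (e : ℕ → ℕ) : envL (a :: l) e = scons a (envL l e) := by
  funext i
  cases i with
  | zero => simp [envL, scons]
  | succ i =>
    rcases lt_or_ge i l.length with h | h
    · have h' : i + 1 < (a :: l).length := by simpa using h
      rw [envL_lt _ _ _ h']
      simp [scons, envL_lt l e i h]
    · obtain ⟨j, rfl⟩ := Nat.exists_eq_add_of_le h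
      have h1 : envL (a :: l) e (l.length + j + 1) = e j := by
        have := envL_ge (a :: l) e j
        rwa [show (a :: l).length + j = l.length + j + 1 by simp; omega] at this
      rw [h1]
      exact (envL_ge l e j).symm

lemma envL_nil (e : ℕ → ℕ) : envL [] e = e := by
  funext i
  have := envL_ge [] e i
  simpa using this

/-- Value of a term in the natural numbers. -/
def Tm.nval (e : ℕ → ℕ) : Tm → ℕ
  | .var i => e i
  | .zero => 0
  | .one => 1
  | .add s t => s.nval e + t.nval e
  | .mul s t => s.nval e * t.nval e

lemma Tm.val_omega (S : Set (Set ℕ)) (e : ℕ → ℕ) (t : Tm) :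
    t.val (omegaStr S) e = t.nval e := by
  induction t with
  | var i => rfl
  | zero => rfl
  | one => rfl
  | add s t hs ht =>
    have h1 : (Tm.add s t).val (omegaStr S) e =
      Nat.add (s.val (omegaStr S) e) (t.val (omegaStr S) e) := rfl
    rw [h1, hs, ht]
    rfl
  | mul s t hs ht =>
    have h1 : (Tm.mul s t).val (omegaStr S) e =
      Nat.mul (s.val (omegaStr S) e) (t.val (omegaStr S) e) := rfl
    rw [h1, hs, ht]
    rfl

/-- The truth value of the bounded formula `θ` (sets `E`, parameters `e`) is given by a primitive
recursive monotone functional of the oracle `X` and of the list of the other variables. -/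
def HasB (S : Set (Set ℕ)) (E : ℕ → Set ℕ) (e : ℕ → ℕ) (θ : BFm) (X : Set ℕ) : Prop :=
  ∃ R : List Bool → List ℕ → Option Bool, Primrec₂ R ∧ MonoF R ∧
    ∀ l, ∃ n, R (pre X n) l = some (open Classical in decide (θ.Sat (omegaStr S) E (envL l e)))

end Pool.Agent.Lib.MP_b4a791_lc
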