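import Pool.Agent.Lib.MP_b4a791_lc.D.Fm_tm
import Pool.Agent.Lib.MP_b4a791_lc.D.NF
import Pool.Agent.Lib.MP_b4a791_lc.D.CV

/-! Membership, negation, conjunction, and monotonicity of `HasB` in the oracle. -/

namespace Pool.Agent.Lib.MP_b4a791_lc

open Classical in
private theorem Fm_mem_not {P Q : Prop} (h : Q ↔ ¬ P) : (!(decide P)) = decide Q := by
  by_cases hP : P
  · have hQ : ¬ Q := fun hQ => h.1 hQ hP
    simp [hP, hQ]
  · have hQ : Q := h.2 hP
    simp [hP, hQ]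

open Classical in
private theorem Fm_mem_and {P P' Q : Prop} (h : Q ↔ P ∧ P') :
    (decide P && decide P') = decide Q := by
  by_cases hQ : Q
  · have h1 := h.1 hQ
    simp [hQ, h1.1, h1.2]
  · by_cases hP : P
    · have hP' : ¬ P' := fun hP' => hQ (h.2 ⟨hP, hP'⟩)
      simp [hQ, hP, hP']
    · simp [hQ, hP]

/-- Use the normal form `nf` of `E i ≤_T X` and `primrec_tm`. -/
theorem hasB_mem (S : Set (Set ℕ)) (E : ℕ → Set ℕ) (e : ℕ → ℕ) (t : Tm) (i : ℕ) (X : Set ℕ)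
    (h : TRed (E i) X) : HasB S E e (.mem t i) X := by
  obtain ⟨R, hR, hm, hs⟩ := nf h
  refine ⟨fun σ l => R σ (t.nval (envL l e)), ?_, ?_, ?_⟩
  · exact hR.comp Primrec.fst ((primrec_tm e t).comp Primrec.snd)
  · intro σ τ l b hst hb
    exact hm σ τ _ b hst hb
  · intro l
    obtain ⟨n, hn⟩ := hs (t.nval (envL l e))
    refine ⟨n, ?_⟩
    show R (pre X n) (t.nval (envL l e)) = _
    rw [hn]
    have h1 : (BFm.mem t i).Sat (omegaStr S) E (envL l e) ↔ t.nval (envL l e) ∈ E i := by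
      show t.val (omegaStr S) (envL l e) ∈ E i ↔ _
      rw [Tm.val_omega]
      exact Iff.rfl
    congr 1
    exact (decide_eq_decide.2 h1).symm

theorem HasB.neg {S : Set (Set ℕ)} {E : ℕ → Set ℕ} {e : ℕ → ℕ} {θ : BFm} {X : Set ℕ}
    (h : HasB S E e θ X) : HasB S E e (.neg θ) X := by
  obtain ⟨R, hR, hm, hs⟩ := h
  refine ⟨fun σ l => (R σ l).map fun b => !b, ?_, ?_, ?_⟩
  · exact Primrec.option_map (f := fun q : List Bool × List ℕ => R q.1 q.2)
      (g := fun _ b => !b) hR (Primrec.not.comp Primrec.snd)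
  · intro σ τ l b hst hb
    obtain ⟨a, ha, hab⟩ := Option.map_eq_some_iff.1 hb
    exact Option.map_eq_some_iff.2 ⟨a, hm σ τ l a hst ha, hab⟩
  · intro l
    obtain ⟨n, hn⟩ := hs l
    exact ⟨n, Option.map_eq_some_iff.2 ⟨_, hn, Fm_mem_not Iff.rfl⟩⟩

theorem HasB.and {S : Set (Set ℕ)} {E : ℕ → Set ℕ} {e : ℕ → ℕ} {θ η : BFm} {X : Set ℕ}
    (h : HasB S E e θ X) (h' : HasB S E e η X) : HasB S E e (.and θ η) X := by
  obtain ⟨R, hR, hm, hs⟩ := h
  obtain ⟨R', hR', hm', hs'⟩ := h'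
  refine ⟨fun σ l => (R σ l).bind fun a => (R' σ l).map fun b => a && b, ?_, ?_, ?_⟩
  · refine Primrec.option_bind (f := fun q : List Bool × List ℕ => R q.1 q.2)
      (g := fun q a => (R' q.1 q.2).map fun b => a && b) hR ?_
    exact Primrec.option_map
      (f := fun w : (List Bool × List ℕ) × Bool => R' w.1.1 w.1.2) (g := fun w b => w.2 && b)
      (hR'.comp (Primrec.fst.comp Primrec.fst) (Primrec.snd.comp Primrec.fst))
      (Primrec.and.comp (Primrec.snd.comp Primrec.fst) Primrec.snd)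
  · intro σ τ l b hst hb
    obtain ⟨a, ha, hab⟩ := Option.bind_eq_some_iff.1 hb
    obtain ⟨c, hc, hcb⟩ := Option.map_eq_some_iff.1 hab
    exact Option.bind_eq_some_iff.2 ⟨a, hm σ τ l a hst ha,
      Option.map_eq_some_iff.2 ⟨c, hm' σ τ l c hst hc, hcb⟩⟩
  · intro l
    obtain ⟨n, hn⟩ := hs l
    obtain ⟨n', hn'⟩ := hs' l
    refine ⟨max n n', Option.bind_eq_some_iff.2 ⟨_, hm _ _ _ _ (pre_prefix X (le_max_left n n')) hn,
      Option.map_eq_some_iff.2 ⟨_, hm' _ _ _ _ (pre_prefix X (le_max_right n n')) hn',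
        Fm_mem_and Iff.rfl⟩⟩⟩

end Pool.Agent.Lib.MP_b4a791_lc
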