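import Pool.Agent.Lib.MP_b4a791_lc.D.Fm_defs
import Pool.Agent.Lib.MP_b4a791_lc.D.NF

/-! `HasB` is monotone in the oracle. -/

namespace Pool.Agent.Lib.MP_b4a791_lc

/-- the list of the first bits `Q 0, Q 1, …`, at most `k` of them, up to the first undefined one -/
private noncomputable def Fm_oracle_T (Q : ℕ → Option Bool) (k : ℕ) : List Bool :=
  Nat.rec (motive := fun _ => List Bool) []
    (fun _ r => Option.casesOn (motive := fun _ => List Bool) (Q r.length) r (fun b => r ++ [b])) k

private theorem Fm_oracle_T_succ (Q : ℕ → Option Bool) (k : ℕ) :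
    Fm_oracle_T Q (k + 1) = Option.casesOn (motive := fun _ => List Bool)
      (Q (Fm_oracle_T Q k).length) (Fm_oracle_T Q k) (fun b => Fm_oracle_T Q k ++ [b]) := rfl

private theorem Fm_oracle_T_none (Q : ℕ → Option Bool) (k : ℕ) (h : Q (Fm_oracle_T Q k).length = none) :
    Fm_oracle_T Q (k + 1) = Fm_oracle_T Q k := by
  rw [Fm_oracle_T_succ, h]

private theorem Fm_oracle_T_some (Q : ℕ → Option Bool) (k : ℕ) (b : Bool)
    (h : Q (Fm_oracle_T Q k).length = some b) :
    Fm_oracle_T Q (k + 1) = Fm_oracle_T Q k ++ [b] := by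
  rw [Fm_oracle_T_succ, h]

private theorem Fm_oracle_T_get (Q : ℕ → Option Bool) (k : ℕ) :
    ∀ i b, (Fm_oracle_T Q k)[i]? = some b → Q i = some b := by
  induction k with
  | zero =>
    intro i b h
    exact absurd h (by simp [Fm_oracle_T])
  | succ k ih =>
    intro i b h
    cases hq : Q (Fm_oracle_T Q k).length with
    | none =>
      rw [Fm_oracle_T_none Q k hq] at h
      exact ih i b h
    | some c =>
      rw [Fm_oracle_T_some Q k c hq] at h
      rcases lt_trichotomy i (Fm_oracle_T Q k).length with hi | hi | hi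
      · rw [List.getElem?_append_left hi] at h
        exact ih i b h
      · subst hi
        rw [List.getElem?_append_right le_rfl] at h
        simp only [Nat.sub_self, List.getElem?_cons_zero, Option.some.injEq] at h
        rw [hq, h]
      · rw [List.getElem?_eq_none (by rw [List.length_append, List.length_singleton]; omega)] at h
        exact absurd h (by simp)

private theorem Fm_oracle_T_len (Q Q' : ℕ → Option Bool) (h : ∀ i b, Q i = some b → Q' i = some b)
    (k : ℕ) : (Fm_oracle_T Q k).length ≤ (Fm_oracle_T Q' k).length := by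
  induction k with
  | zero => exact le_rfl
  | succ k ih =>
    have h1 : (Fm_oracle_T Q' k).length ≤ (Fm_oracle_T Q' (k + 1)).length := by
      cases hq : Q' (Fm_oracle_T Q' k).length with
      | none => rw [Fm_oracle_T_none Q' k hq]
      | some c => rw [Fm_oracle_T_some Q' k c hq, List.length_append]; omega
    cases hq : Q (Fm_oracle_T Q k).length with
    | none =>
      rw [Fm_oracle_T_none Q k hq]
      exact ih.trans h1
    | some c =>
      rw [Fm_oracle_T_some Q k c hq, List.length_append, List.length_singleton]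
      rcases ih.lt_or_eq with hl | hl
      · omega
      · have h2 := h _ _ hq
        rw [hl] at h2
        rw [Fm_oracle_T_some Q' k c h2, List.length_append, List.length_singleton, hl]

private theorem Fm_oracle_T_mono (Q : ℕ → Option Bool) {k l : ℕ} (h : k ≤ l) :
    (Fm_oracle_T Q k).length ≤ (Fm_oracle_T Q l).length := by
  induction l, h using Nat.le_induction with
  | base => exact le_rfl
  | succ l _ ih =>
    refine ih.trans ?_
    cases hq : Q (Fm_oracle_T Q l).length with
    | none => rw [Fm_oracle_T_none Q l hq]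
    | some c => rw [Fm_oracle_T_some Q l c hq, List.length_append]; omega

private theorem Fm_oracle_prefix {Q : ℕ → Option Bool} {r r' : List Bool} (h : r.length ≤ r'.length)
    (hr : ∀ i b, r[i]? = some b → Q i = some b) (hr' : ∀ i b, r'[i]? = some b → Q i = some b) :
    r <+: r' := by
  rw [List.prefix_iff_eq_take]
  apply List.ext_getElem?
  intro i
  rw [List.getElem?_take]
  split_ifs with hi
  · have h1 : r[i]? = some r[i] := List.getElem?_eq_getElem hi
    have h2 : r'[i]? = some (r'[i]'(by omega)) := List.getElem?_eq_getElem (by omega)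
    have h3 := hr i _ h1
    have h4 := hr' i _ h2
    rw [h3] at h4
    rw [h1, h2, h4]
  · exact List.getElem?_eq_none (by omega)

/-- if all bits below `n` are defined then the list has length at least `n` -/
private theorem Fm_oracle_T_full (Q : ℕ → Option Bool) (n : ℕ) (h : ∀ i < n, (Q i).isSome) :
    n ≤ (Fm_oracle_T Q n).length := by
  induction n with
  | zero => exact Nat.zero_le _
  | succ n ih =>
    have h1 := ih fun i hi => h i (by omega)
    cases hq : Q (Fm_oracle_T Q n).length with
    | none =>
      rw [Fm_oracle_T_none Q n hq]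
      by_contra hc
      have h2 : (Fm_oracle_T Q n).length = n := by omega
      have h3 := h n (by omega)
      rw [← h2, hq] at h3
      exact absurd h3 (by simp)
    | some c =>
      rw [Fm_oracle_T_some Q n c hq, List.length_append, List.length_singleton]
      omega

private theorem Fm_oracle_primrec {Q : List Bool → ℕ → Option Bool} (hQ : Primrec₂ Q) :
    Primrec fun σ : List Bool => Fm_oracle_T (Q σ) σ.length := by
  have hh : Primrec₂ fun (σ : List Bool) (q : ℕ × List Bool) =>
      (Option.casesOn (motive := fun _ => List Bool) (Q σ q.2.length) q.2 (fun b => q.2 ++ [b])) := by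
    have h1 : Primrec fun a : List Bool × (ℕ × List Bool) => a.2.2 := Primrec.snd.comp Primrec.snd
    exact Primrec.option_casesOn (hQ.comp Primrec.fst (Primrec.list_length.comp h1)) h1
      (Primrec.list_concat.comp (h1.comp Primrec.fst) Primrec.snd).to₂
  exact Primrec.nat_rec' Primrec.list_length (Primrec.const []) hh

/-- Given `X ≤_T X'` take the normal form `Q` of this reduction. The new functional computes from
`σ` the longest `τ` with `|τ| ≤ |σ|` all of whose bits `Q σ i` (`i < |τ|`) are defined, and applies
`R τ`. -/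
theorem HasB.mono {S : Set (Set ℕ)} {E : ℕ → Set ℕ} {e : ℕ → ℕ} {θ : BFm} {X X' : Set ℕ}
    (hX : TRed X X') (h : HasB S E e θ X) : HasB S E e θ X' := by
  classical
  obtain ⟨R, hR, hm, hv⟩ := h
  obtain ⟨Q, hQ, hQm, hQv⟩ := nf hX
  have key : ∀ (σ τ : List Bool) (k l : ℕ), σ <+: τ → k ≤ l →
      Fm_oracle_T (Q σ) k <+: Fm_oracle_T (Q τ) l := by
    intro σ τ k l h hkl
    have hq : ∀ i b, Q σ i = some b → Q τ i = some b := fun i b hb => hQm σ τ i b h hb
    exact Fm_oracle_prefix (Q := Q τ)
      ((Fm_oracle_T_len _ _ hq k).trans (Fm_oracle_T_mono _ hkl))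
      (fun i b hb => hq i b (Fm_oracle_T_get _ _ i b hb)) (Fm_oracle_T_get _ _)
  refine ⟨fun σ l => R (Fm_oracle_T (Q σ) σ.length) l, ?_, ?_, ?_⟩
  · exact hR.comp ((Fm_oracle_primrec hQ).comp Primrec.fst) Primrec.snd
  · intro σ τ x b h hb
    exact hm _ _ x b (key σ τ _ _ h h.length_le) hb
  · intro l
    obtain ⟨n, hn⟩ := hv l
    have h1 : ∃ N, n ≤ N ∧ ∀ i < n, Q (pre X' N) i = some (decide (i ∈ X)) := by
      choose g hg using hQv
      refine ⟨n + ∑ i ∈ Finset.range n, g i, by omega, fun i hi => ?_⟩
      refine hQm _ _ i _ (pre_prefix X' ?_) (hg i)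
      have h2 : g i ≤ ∑ i ∈ Finset.range n, g i :=
        Finset.single_le_sum (f := g) (fun _ _ => Nat.zero_le _) (Finset.mem_range.2 hi)
      omega
    obtain ⟨N, hN, hNq⟩ := h1
    refine ⟨N, hm (pre X n) _ l _ ?_ hn⟩
    rw [length_pre]
    have h2 : n ≤ (Fm_oracle_T (Q (pre X' N)) n).length :=
      Fm_oracle_T_full _ n fun i hi => by rw [hNq i hi]; rfl
    refine Fm_oracle_prefix (Q := Q (pre X' N)) ?_ ?_ (Fm_oracle_T_get _ _)
    · rw [length_pre]
      exact h2.trans (Fm_oracle_T_mono _ hN)
    · intro i b hb
      have hi : i < n := by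
        by_contra hc
        rw [List.getElem?_eq_none (by rw [length_pre]; omega)] at hb
        exact absurd hb (by simp)
      rw [getElem?_pre X n i hi] at hb
      rw [hNq i hi, hb]

end Pool.Agent.Lib.MP_b4a791_lc
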