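import Pool.Agent.Lib.MP_b4a791_lc.D.Fm_defs

/-! Terms and atomic formulas without sets. -/

namespace Pool.Agent.Lib.MP_b4a791_lc

/-- The value of a term is a primitive recursive function of the list `l`. -/
theorem primrec_tm (e : ℕ → ℕ) (t : Tm) : Primrec fun l : List ℕ => t.nval (envL l e) := by
  induction t with
  | var i =>
    change Primrec fun l : List ℕ => ((l ++ (List.range (i + 1)).map e)[i]?).getD 0
    exact Primrec.option_getD.comp
      (Primrec.list_getElem?.comp
        (Primrec.list_append.comp Primrec.id (Primrec.const ((List.range (i + 1)).map e)))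
        (Primrec.const i)) (Primrec.const 0)
  | zero => exact Primrec.const 0
  | one => exact Primrec.const 1
  | add s t hs ht => exact Primrec.nat_add.comp hs ht
  | mul s t hs ht => exact Primrec.nat_mul.comp hs ht

theorem hasB_eq (S : Set (Set ℕ)) (E : ℕ → Set ℕ) (e : ℕ → ℕ) (s t : Tm) (X : Set ℕ) :
    HasB S E e (.eq s t) X := by
  refine ⟨fun _ l => some (decide (s.nval (envL l e) = t.nval (envL l e))), ?_, ?_, ?_⟩
  · exact (Primrec.option_some.comp (Primrec.eq.decide.comp
      ((primrec_tm e s).comp Primrec.snd) ((primrec_tm e t).comp Primrec.snd))).to₂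
  · intro σ τ x b _ h
    exact h
  · intro l
    refine ⟨0, ?_⟩
    have h : (BFm.eq s t).Sat (omegaStr S) E (envL l e) ↔
        s.nval (envL l e) = t.nval (envL l e) := by
      change s.val (omegaStr S) (envL l e) = t.val (omegaStr S) (envL l e) ↔ _
      rw [Tm.val_omega, Tm.val_omega]
      exact Iff.rfl
    simp only [h]

theorem hasB_lt (S : Set (Set ℕ)) (E : ℕ → Set ℕ) (e : ℕ → ℕ) (s t : Tm) (X : Set ℕ) :
    HasB S E e (.lt s t) X := by
  refine ⟨fun _ l => some (decide (s.nval (envL l e) < t.nval (envL l e))), ?_, ?_, ?_⟩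
  · exact (Primrec.option_some.comp (Primrec.nat_lt.decide.comp
      ((primrec_tm e s).comp Primrec.snd) ((primrec_tm e t).comp Primrec.snd))).to₂
  · intro σ τ x b _ h
    exact h
  · intro l
    refine ⟨0, ?_⟩
    have h : (BFm.lt s t).Sat (omegaStr S) E (envL l e) ↔
        s.nval (envL l e) < t.nval (envL l e) := by
      change (omegaStr S).lt (s.val (omegaStr S) (envL l e)) (t.val (omegaStr S) (envL l e)) ↔ _
      rw [Tm.val_omega, Tm.val_omega]
      rfl
    simp only [h]

end Pool.Agent.Lib.MP_b4a791_lc
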