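import Pool.Agent.Lib.MP_b4a791_lc.D.Defs

/-!
# MP_b4a791_lc, Part D: functionals with finite use
-/

namespace Pool.Agent.Lib.MP_b4a791_lc

/-- `g` is given, at the oracle `X`, by a partial recursive functional `G` of finite strings. -/
def HasF (X : Set ℕ) (g : ℕ →. ℕ) : Prop :=
  ∃ G : List Bool → ℕ →. ℕ, Partrec₂ G ∧
    (∀ σ τ x y, σ <+: τ → y ∈ G σ x → y ∈ G τ x) ∧
    ∀ x y, y ∈ g x ↔ ∃ n, y ∈ G (pre X n) x

end Pool.Agent.Lib.MP_b4a791_lc
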