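import Pool.Agent.Lib.MP_b4a791_lc.D.Fm_mem
import Pool.Agent.Lib.MP_b4a791_lc.D.Fm_ball
import Pool.Agent.Lib.MP_b4a791_lc.D.Fm_oracle
import Pool.Agent.Lib.MP_b4a791_lc.D.CV
import Pool.Agent.Lib.MP_b4a791_lc.D.Join

/-! `ω`-models given by Turing ideals satisfy `RCA₀`. -/

namespace Pool.Agent.Lib.MP_b4a791_lc

/-- Turing ideals. -/
structure Ideal (S : Set (Set ℕ)) : Prop where
  ne : S.Nonempty
  down : ∀ X ∈ S, ∀ Y, TRed Y X → Y ∈ S
  jn : ∀ X ∈ S, ∀ Y ∈ S, join X Y ∈ S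

/-- Every bounded formula with set parameters in the ideal is evaluated by a functional with an
oracle in the ideal. -/
theorem Ideal.hasB {S : Set (Set ℕ)} (hS : Ideal S) (E : ℕ → Set ℕ) (hE : ∀ i, E i ∈ S)
    (e : ℕ → ℕ) (θ : BFm) : ∃ X ∈ S, HasB S E e θ X := by
  obtain ⟨X0, hX0⟩ := hS.ne
  induction θ with
  | eq s t => exact ⟨X0, hX0, hasB_eq S E e s t X0⟩
  | lt s t => exact ⟨X0, hX0, hasB_lt S E e s t X0⟩
  | mem t i => exact ⟨E i, hE i, hasB_mem S E e t i (E i) (TRed.refl _)⟩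
  | neg θ ih =>
    obtain ⟨X, hX, h⟩ := ih
    exact ⟨X, hX, h.neg⟩
  | and θ η ih ih' =>
    obtain ⟨X, hX, h⟩ := ih
    obtain ⟨Y, hY, h'⟩ := ih'
    exact ⟨join X Y, hS.jn X hX Y hY, (h.mono (tred_join_left X Y)).and
      (h'.mono (tred_join_right X Y))⟩
  | ball t θ ih =>
    obtain ⟨X, hX, h⟩ := ih
    exact ⟨X, hX, h.ball t⟩

private theorem rca_pred (R : List Bool → List ℕ → Option Bool) (hR : Primrec₂ R) :
    PrimrecPred fun b : List Bool × ℕ =>
      ∃ y ∈ List.range b.1.length, R b.1 [y, b.2] = some true := by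
  have h1 : PrimrecRel fun (y : ℕ) (b : List Bool × ℕ) => R b.1 [y, b.2] = some true := by
    refine Primrec.eq.comp (hR.comp (Primrec.fst.comp Primrec.snd) ?_) (Primrec.const (some true))
    exact Primrec.list_cons.comp Primrec.fst
      (Primrec.list_cons.comp (Primrec.snd.comp Primrec.snd) (Primrec.const []))
  exact h1.exists_mem_list.comp (Primrec.list_range.comp (Primrec.list_length.comp Primrec.fst))
    Primrec.id

private theorem rca_sig (S : Set (Set ℕ)) (E : ℕ → Set ℕ) (e : ℕ → ℕ) (θ : BFm) (x : ℕ) :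
    Sig (omegaStr S) E e θ x ↔ ∃ y : ℕ, θ.Sat (omegaStr S) E (envL [y, x] e) := by
  have h : ∀ y : ℕ, envL [y, x] e = scons y (scons x e) := by
    intro y
    rw [envL_cons, envL_cons, envL_nil]
  constructor
  · rintro ⟨y, hy⟩
    refine ⟨y, ?_⟩
    rw [h]
    exact hy
  · rintro ⟨y, hy⟩
    refine ⟨y, ?_⟩
    rw [h] at hy
    exact hy

open Classical in
private theorem rca_true {S : Set (Set ℕ)} {E : ℕ → Set ℕ} {e : ℕ → ℕ} {θ : BFm} {X : Set ℕ}
    {R : List Bool → List ℕ → Option Bool} (hm : MonoF R)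
    (hd : ∀ l, ∃ n, R (pre X n) l = some (decide (θ.Sat (omegaStr S) E (envL l e)))) {x n : ℕ}
    (h : ∃ y ∈ List.range (pre X n).length, R (pre X n) [y, x] = some true) :
    Sig (omegaStr S) E e θ x := by
  obtain ⟨y, -, hy⟩ := h
  obtain ⟨m, hm'⟩ := hd [y, x]
  have h1 := hm _ _ _ _ (pre_prefix X (le_max_left n m)) hy
  have h2 := hm _ _ _ _ (pre_prefix X (le_max_right n m)) hm'
  rw [h1] at h2
  have h3 := Option.some_injective _ h2
  exact (rca_sig S E e θ x).2 ⟨y, of_decide_eq_true h3.symm⟩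

open Classical in
private theorem rca_find {S : Set (Set ℕ)} {E : ℕ → Set ℕ} {e : ℕ → ℕ} {θ : BFm} {X : Set ℕ}
    {R : List Bool → List ℕ → Option Bool} (hm : MonoF R)
    (hd : ∀ l, ∃ n, R (pre X n) l = some (decide (θ.Sat (omegaStr S) E (envL l e)))) {x : ℕ}
    (h : Sig (omegaStr S) E e θ x) :
    ∃ n, ∃ y ∈ List.range (pre X n).length, R (pre X n) [y, x] = some true := by
  obtain ⟨y, hy⟩ := (rca_sig S E e θ x).1 h
  obtain ⟨m, hm'⟩ := hd [y, x]
  refine ⟨max m (y + 1), y, ?_, ?_⟩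
  · rw [length_pre, List.mem_range]
    exact lt_of_lt_of_le (Nat.lt_succ_self y) (le_max_right _ _)
  · have h2 := hm _ _ _ _ (pre_prefix X (le_max_left m (y + 1))) hm'
    rw [h2, decide_eq_true hy]

/-- `Δ⁰₁` comprehension in a Turing ideal: given functionals for `θ` and `η` with the same oracle
`X`, search for `y < σ.length` with `θ(y, n)` true or `η(y, n)` true (first `y`, and evaluation
`R (σ.take k)` is not needed: use `cv`, which only needs correctness). -/
theorem Ideal.comp {S : Set (Set ℕ)} (hS : Ideal S) (θ η : BFm) (E : ℕ → Set ℕ) (e : ℕ → ℕ)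
    (hE : ∀ i, E i ∈ S)
    (h : ∀ n : ℕ, Sig (omegaStr S) E e θ n ↔ ¬ Sig (omegaStr S) E e η n) :
    {n : ℕ | Sig (omegaStr S) E e θ n} ∈ S := by
  classical
  obtain ⟨X₁, hX₁, h₁⟩ := hS.hasB E hE e θ
  obtain ⟨X₂, hX₂, h₂⟩ := hS.hasB E hE e η
  have hX := hS.jn X₁ hX₁ X₂ hX₂
  obtain ⟨R, hR, hRm, hRd⟩ := h₁.mono (tred_join_left X₁ X₂)
  obtain ⟨Q, hQ, hQm, hQd⟩ := h₂.mono (tred_join_right X₁ X₂)
  refine hS.down _ hX _ (cv (fun σ x =>
    if (∃ y ∈ List.range (σ, x).1.length, R (σ, x).1 [y, (σ, x).2] = some true) then some true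
    else if (∃ y ∈ List.range (σ, x).1.length, Q (σ, x).1 [y, (σ, x).2] = some true) then
      some false else none) ?_ ?_ ?_)
  · exact Primrec.ite (rca_pred R hR) (Primrec.const _)
      (Primrec.ite (rca_pred Q hQ) (Primrec.const _) (Primrec.const _))
  · intro x
    by_cases hx : Sig (omegaStr S) E e θ x
    · obtain ⟨n, hn⟩ := rca_find hRm hRd hx
      refine ⟨n, ?_⟩
      rw [if_pos hn]
      rfl
    · have hx' : Sig (omegaStr S) E e η x := by
        by_contra h0
        exact hx ((h x).2 h0)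
      obtain ⟨n, hn⟩ := rca_find hQm hQd hx'
      refine ⟨n, ?_⟩
      split_ifs
      · rfl
      · rfl
  · intro x n b hb
    split_ifs at hb with h1 h2
    · have h3 := rca_true hRm hRd h1
      rw [← Option.some_injective _ hb]
      exact (decide_eq_true h3).symm
    · have h3 := rca_true hQm hQd h2
      have h4 : ¬ Sig (omegaStr S) E e θ x := fun h5 => (h x).1 h5 h3
      rw [← Option.some_injective _ hb]
      exact (decide_eq_false h4).symm

theorem Ideal.rca0 {S : Set (Set ℕ)} (hS : Ideal S) : RCA0 (omegaStr S) where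
  sets := hS.ne
  succ_ne_zero := fun n => Nat.succ_ne_zero n
  succ_inj := fun m n h => Nat.succ_injective h
  add_zero := fun m => Nat.add_zero m
  add_succ := fun m n => (Nat.add_assoc m n 1).symm
  mul_zero := fun m => Nat.mul_zero m
  mul_succ := fun m n => Nat.mul_succ m n
  not_lt_zero := fun m => Nat.not_lt_zero m
  lt_succ := fun m n => Nat.lt_succ_iff_lt_or_eq
  ind := fun θ E e _ h0 h1 n => by
    induction n with
    | zero => exact h0
    | succ n ih => exact h1 n ih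
  comp := fun θ η E e hE h => hS.comp θ η E e hE h

/-- The ideal generated by an increasing sequence. -/
theorem ideal_of_chain (X : ℕ → Set ℕ) (h : ∀ m, TRed (X m) (X (m + 1))) :
    Ideal {Y | ∃ m, TRed Y (X m)} := by
  have hmono : ∀ m n, m ≤ n → TRed (X m) (X n) := fun m n hmn => by
    induction hmn with
    | refl => exact TRed.refl _
    | step _ ih => exact ih.trans (h _)
  refine ⟨⟨X 0, 0, TRed.refl _⟩, fun Y hY Z hZ => ?_, fun Y hY Z hZ => ?_⟩
  · obtain ⟨m, hm⟩ := hY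
    exact ⟨m, hZ.trans hm⟩
  · obtain ⟨m, hm⟩ := hY
    obtain ⟨n, hn⟩ := hZ
    exact ⟨max m n, join_tred (hm.trans (hmono _ _ (le_max_left _ _)))
      (hn.trans (hmono _ _ (le_max_right _ _)))⟩

end Pool.Agent.Lib.MP_b4a791_lc
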